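import Pool.Agent.H463Z.Split.Defs

namespace Pool.Agent.H463Z.Split

universe u

variable {E : Type u}

theorem length_hist (p : ℕ → Set E × Set E) (n : ℕ) : (hist p n).length = n := by
  induction n with
  | zero => rfl
  | succ n ih => simp [hist, ih]

theorem exists_play (Inv : List (Set E × Set E) → Prop) (h0 : Inv [])
    (step : ∀ h, Inv h → ∃ m, Inv (m :: h)) : ∃ p : ℕ → Set E × Set E, ∀ n, Inv (hist p n) := by
  classical
  choose f hf using step
  let s : ℕ → {h // Inv h} := fun n => Nat.rec ⟨[], h0⟩ (fun _ x => ⟨f x.1 x.2 :: x.1, hf x.1 x.2⟩) n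
  refine ⟨fun n => f (s n).1 (s n).2, ?_⟩
  have key : ∀ n, hist (fun n => f (s n).1 (s n).2) n = (s n).1 := by
    intro n
    induction n with
    | zero => rfl
    | succ n ih => simp only [hist]; rw [ih]
  intro n
  rw [key]
  exact (s n).2

/-- The side `b` of a split. -/
def side (l : Set E × Set E) (b : Bool) : Set E := if b then l.1 else l.2

/-- Pick side `b` of `l` and cut it by `C`. -/
def cut (l : Set E × Set E) (b : Bool) (C : Set E) : Set E × Set E :=
  (side l b ∩ C, side l b \ C)

theorem picked_cut (l : Set E × Set E) (b : Bool) (C : Set E) : picked (cut l b C) = side l b := by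
  simp [picked, cut]

theorem legal_cut (l : Set E × Set E) (h : List (Set E × Set E)) (b : Bool) (C : Set E) :
    LegalMove (l :: h) (cut l b C) := by
  refine ⟨?_, ?_⟩
  · exact Set.disjoint_left.2 fun x hx hx' => hx'.2 hx.2
  · rw [picked_cut]; cases b <;> simp [side]

theorem exists_side {l : Set E × Set E} {x : E} (hx : x ∈ picked l) : ∃ b, x ∈ side l b := by
  rcases hx with hx | hx
  · exact ⟨true, by simpa [side] using hx⟩
  · exact ⟨false, by simpa [side] using hx⟩

theorem exists_code (E : Type u) [Uncountable E] :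
    ∃ f : E → (ℕ → Bool), ¬ (Set.range f).Countable := by
  rcases Function.Embedding.total E (ℕ → Bool) with ⟨⟨e⟩⟩ | ⟨⟨e⟩⟩
  · refine ⟨e, fun h => ?_⟩
    have h2 : (e ⁻¹' Set.range e).Countable := h.preimage_of_injOn e.injective.injOn
    rw [Set.preimage_range, Set.countable_univ_iff] at h2
    exact not_countable h2
  · refine ⟨Function.invFun e, fun h => ?_⟩
    have hs : Function.Surjective (Function.invFun e) := Function.invFun_surjective e.injective
    rw [hs.range_eq, Set.countable_univ_iff] at h
    have h3 : Cardinal.mk (ℕ → Bool) = Cardinal.continuum := by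
      rw [← Cardinal.power_def, Cardinal.mk_bool, Cardinal.mk_nat, Cardinal.two_power_aleph0]
    have h4 := Cardinal.mk_le_aleph0_iff.2 h
    rw [h3] at h4
    exact absurd h4 (not_le.2 Cardinal.aleph0_lt_continuum)

/-- The countably many histories in which A follows `σ` and B cuts by the sets `C n`. -/
def gen (σ : List (Set E × Set E) → Set E × Set E) (C : ℕ → Set E) :
    List (Bool × ℕ) → List (Set E × Set E)
  | [] => []
  | a :: t =>
    if (gen σ C t).length % 2 = 0 then σ (gen σ C t) :: gen σ C t
    else cut ((gen σ C t).headD (∅, ∅)) a.1 (C a.2) :: gen σ C t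

theorem not_AHasWinning (E : Type u) [Uncountable E] : ¬ AHasWinning E := by
  classical
  rintro ⟨σ, hσ, hwin⟩
  obtain ⟨f, hf⟩ := exists_code E
  let C : ℕ → Set E := fun n => {x | f x n = true}
  let code : List (Bool × ℕ) × Bool → (ℕ → Bool) := fun tb n =>
    decide (picked (σ (cut ((gen σ C tb.1).headD (∅, ∅)) tb.2 (C n) :: gen σ C tb.1)) =
      side ((gen σ C tb.1).headD (∅, ∅)) tb.2 \ C n)
  obtain ⟨δ, hδ⟩ : ∃ δ : E, f δ ∉ Set.range code := by
    by_contra hcon
    push Not at hcon
    exact hf ((Set.countable_range code).mono (by rintro _ ⟨x, rfl⟩; exact hcon x))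
  let Inv : List (Set E × Set E) → Prop := fun h =>
    (∃ t, gen σ C t = h) ∧ LegalHist h ∧ (∀ m ∈ h, δ ∈ picked m) ∧
      (h.length % 2 = 0 → δ ∈ picked (σ h)) ∧
      (∀ m h', h = m :: h' → h'.length % 2 = 0 → m = σ h')
  have h0 : Inv [] := by
    refine ⟨⟨[], rfl⟩, trivial, by simp, fun _ => ?_, by simp⟩
    have := (hσ [] trivial rfl).2
    rw [this]; trivial
  have step : ∀ h, Inv h → ∃ m, Inv (m :: h) := by
    rintro h ⟨⟨t, ht⟩, hl, hmem, hev, -⟩
    by_cases hpar : h.length % 2 = 0
    · refine ⟨σ h, ⟨(true, 0) :: t, by simp [gen, ht, hpar]⟩, ⟨hσ h hl hpar, hl⟩, ?_, ?_, ?_⟩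
      · intro m hm
        rcases List.mem_cons.1 hm with rfl | hm
        · exact hev hpar
        · exact hmem m hm
      · intro h1
        simp only [List.length_cons] at h1
        omega
      · intro m h' heq _
        obtain ⟨rfl, rfl⟩ := List.cons.inj heq
        rfl
    · obtain ⟨l, h', rfl⟩ : ∃ l h', h = l :: h' := by
        cases h with
        | nil => simp at hpar
        | cons l h' => exact ⟨l, h', rfl⟩
      obtain ⟨b, hb⟩ := exists_side (hmem l (by simp))
      have hne : f δ ≠ code (t, b) := fun h => hδ ⟨(t, b), h.symm⟩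
      obtain ⟨n, hn⟩ := Function.ne_iff.1 hne
      have hlegal : LegalHist (cut l b (C n) :: l :: h') := ⟨legal_cut l h' b (C n), hl⟩
      have hpar' : (cut l b (C n) :: l :: h').length % 2 = 0 := by
        simp only [List.length_cons] at hpar ⊢
        omega
      have hmove := (hσ _ hlegal hpar').2
      refine ⟨cut l b (C n), ⟨(b, n) :: t, ?_⟩, hlegal, ?_, ?_, ?_⟩
      · simp only [gen, ht, if_neg hpar, List.headD_cons]
      · intro m hm
        rcases List.mem_cons.1 hm with rfl | hm
        · rw [picked_cut]; exact hb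
        · exact hmem m hm
      · intro _
        simp only [code, ht, List.headD_cons] at hn
        by_cases hc : f δ n = true
        · have h2 : picked (σ (cut l b (C n) :: l :: h')) ≠ side l b \ C n := by
            intro h2
            apply hn
            rw [hc, h2]; simp
          rcases hmove with h3 | h3
          · rw [h3]; exact ⟨hb, hc⟩
          · exact absurd h3 h2
        · have h2 : picked (σ (cut l b (C n) :: l :: h')) = side l b \ C n := by
            by_contra h2
            apply hn
            rw [decide_eq_false h2]; simpa using hc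
          rw [h2]; exact ⟨hb, hc⟩
      · intro m h'' heq h1
        obtain ⟨rfl, rfl⟩ := List.cons.inj heq
        exact absurd h1 hpar
  obtain ⟨p, hp⟩ := exists_play Inv h0 step
  have hplay : IsPlay p := fun n => (hp (n + 1)).2.1.1
  have hfol : Follows 0 σ p := fun n hn =>
    (hp (n + 1)).2.2.2.2 (p n) (hist p n) rfl (by rw [length_hist]; exact hn)
  have hmem : δ ∈ outcome p := by
    simp only [outcome, Set.mem_iInter]
    intro n
    exact (hp (n + 2)).2.2.1 _ (by simp [hist])
  rw [hwin p hplay hfol] at hmem
  exact hmem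

end Pool.Agent.H463Z.Split
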