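import Pool.Agent.H463Z.Split.AWin

namespace Pool.Agent.H463Z.Split

open Cardinal

universe u

theorem exists_inj_choice {I X : Type} (A : I → Set X) (hI : ∀ i, #I ≤ #(A i)) :
    ∃ g : I → X, Function.Injective g ∧ ∀ i, g i ∈ A i := by
  classical
  obtain ⟨r, wo, hr⟩ := Cardinal.exists_ord_eq I
  have hex : ∀ (i : I) (G : (j : I) → r j i → X), ∃ x ∈ A i, ∀ j (hj : r j i), G j hj ≠ x := by
    intro i G
    by_contra hcon
    push Not at hcon
    have h1 : #(A i) ≤ #{j // r j i} := by
      have : A i ⊆ Set.range (fun j : {j // r j i} => G j.1 j.2) := by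
        intro x hx
        obtain ⟨j, hj, rfl⟩ := hcon x hx
        exact ⟨⟨j, hj⟩, rfl⟩
      exact (mk_le_mk_of_subset this).trans mk_range_le
    have h2 : #{j // r j i} < #I := Cardinal.card_typein_lt i hr
    exact absurd ((hI i).trans h1) (not_le.2 h2)
  choose F hFA hF using hex
  let g : I → X := wo.wf.fix F
  have hg : ∀ i, g i = F i (fun j _ => g j) := fun i => wo.wf.fix_eq F i
  refine ⟨g, ?_, fun i => by rw [hg]; exact hFA _ _⟩
  intro i j hij
  rcases trichotomous_of r i j with h | h | h
  · exact absurd (hij.trans (hg j)) (hF j (fun k _ => g k) i h)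
  · exact h
  · exact absurd (hij.symm.trans (hg i)) (hF i (fun k _ => g k) j h)

/-- Maps of Cantor space whose `k`-th output digit depends on the input digits `0, ..., k`. -/
def Lip (φ : (ℕ → Bool) → (ℕ → Bool)) : Prop :=
  ∀ k s s', (∀ j, j ≤ k → s j = s' j) → φ s k = φ s' k

theorem mk_cantor : #(ℕ → Bool) = 𝔠 := by simp

theorem mk_lip_le : #{φ // Lip φ} ≤ 𝔠 := by
  let R : {φ // Lip φ} → (ℕ × List Bool → Bool) := fun φ kt => φ.1 (fun j => kt.2.getD j false) kt.1
  have hR : Function.Injective R := by
    intro φ ψ h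
    apply Subtype.ext
    funext s k
    have h1 := congrFun h (k, (List.range (k + 1)).map s)
    have h2 : ∀ j, j ≤ k → s j = ((List.range (k + 1)).map s).getD j false := by
      intro j hj
      rw [List.getD_eq_getElem _ _ (by simp; omega)]
      simp
    rw [φ.2 k s _ h2, ψ.2 k s _ h2]
    exact h1
  refine (mk_le_of_injective hR).trans ?_
  simp

/-- A Bernstein-type set. -/
theorem exists_bernstein : ∃ B : Set (ℕ → Bool), ∀ φ, Lip φ → Function.Injective φ →
    (∃ s, φ s ∈ B) ∧ (∃ s, φ s ∉ B) := by
  obtain ⟨g, hg, hA⟩ := exists_inj_choice (I := {φ // Lip φ ∧ Function.Injective φ} × Bool)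
    (fun i => Set.range i.1.1) (by
      intro i
      rw [mk_range_eq _ i.1.2.2, mk_cantor]
      have h1 : #{φ // Lip φ ∧ Function.Injective φ} ≤ 𝔠 :=
        (mk_subtype_mono (fun φ (h : Lip φ ∧ Function.Injective φ) => h.1)).trans mk_lip_le
      rw [mk_prod]
      simp only [lift_id]
      calc _ ≤ 𝔠 * 𝔠 := mul_le_mul' h1 (by
              rw [mk_bool]; exact (nat_lt_continuum 2).le)
        _ = 𝔠 := continuum_mul_self)
  refine ⟨Set.range (fun φ => g (φ, true)), fun φ h1 h2 => ⟨?_, ?_⟩⟩
  · obtain ⟨s, hs⟩ := hA (⟨φ, h1, h2⟩, true)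
    exact ⟨s, ⟨⟨φ, h1, h2⟩, hs.symm⟩⟩
  · obtain ⟨s, hs⟩ := hA (⟨φ, h1, h2⟩, false)
    refine ⟨s, ?_⟩
    rintro ⟨ψ, hψ⟩
    have := hg (hψ.trans hs)
    simp at this

variable {E : Type u}

/-- The play in which every move is given by `next`. -/
def run (next : List (Set E × Set E) → Set E × Set E) : ℕ → List (Set E × Set E)
  | 0 => []
  | n + 1 => next (run next n) :: run next n

theorem hist_run (next : List (Set E × Set E) → Set E × Set E) (n : ℕ) :
    hist (fun n => next (run next n)) n = run next n := by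
  induction n with
  | zero => rfl
  | succ n ih => simp only [hist, run, ih]

theorem length_run (next : List (Set E × Set E) → Set E × Set E) (n : ℕ) :
    (run next n).length = n := by
  rw [← hist_run, length_hist]

/-- A opens with `m0`, then picks side `s k` and cuts by `C k`; B follows `τ`. -/
def nextB (τ : List (Set E × Set E) → Set E × Set E) (m0 : Set E × Set E) (C : ℕ → Set E)
    (s : ℕ → Bool) : List (Set E × Set E) → Set E × Set E
  | [] => m0
  | l :: h => if h.length % 2 = 0 then τ (l :: h) else cut l (s (h.length / 2)) (C (h.length / 2))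

theorem run_congr (τ : List (Set E × Set E) → Set E × Set E) (m0 : Set E × Set E)
    (C : ℕ → Set E) (s s' : ℕ → Bool) (n : ℕ) (h : ∀ j, 2 * j + 2 < n → s j = s' j) :
    run (nextB τ m0 C s) n = run (nextB τ m0 C s') n := by
  induction n with
  | zero => rfl
  | succ n ih =>
    have ih' := ih (fun j hj => h j (by omega))
    simp only [run]
    rw [← ih']
    congr 1
    cases n with
    | zero => rfl
    | succ n =>
      simp only [run, nextB, length_run]
      split_ifs with h1
      · rfl
      · rw [h (n / 2) (by omega)]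

theorem legal_run (τ : List (Set E × Set E) → Set E × Set E) (hτ : IsStrategy 1 τ)
    (m0 : Set E × Set E) (hm0 : LegalMove [] m0) (C : ℕ → Set E) (s : ℕ → Bool) (n : ℕ) :
    LegalHist (run (nextB τ m0 C s) n) := by
  induction n with
  | zero => trivial
  | succ n ih =>
    refine ⟨?_, ih⟩
    cases n with
    | zero => exact hm0
    | succ n =>
      have hl := length_run (nextB τ m0 C s) n
      simp only [run] at ih ⊢
      simp only [nextB]
      split_ifs with h1
      · exact hτ _ ih (by simp only [List.length_cons]; omega)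
      · exact legal_cut _ _ _ _

theorem not_BHasWinning (E : Type u) (e : E ↪ (ℕ → Bool)) : ¬ BHasWinning E := by
  classical
  rintro ⟨τ, hτ, hwin⟩
  obtain ⟨B, hB⟩ := exists_bernstein
  let m0 : Set E × Set E := (e ⁻¹' B, e ⁻¹' Bᶜ)
  have hm0 : LegalMove [] m0 := by
    refine ⟨Set.disjoint_left.2 fun x hx hx' => hx' hx, ?_⟩
    ext x
    simp [picked, m0]
  let C : ℕ → Set E := fun n => {x | e x n = true}
  let p : (ℕ → Bool) → ℕ → Set E × Set E := fun s n => nextB τ m0 C s (run (nextB τ m0 C s) n)
  have hh : ∀ s n, hist (p s) n = run (nextB τ m0 C s) n := fun s n => hist_run _ n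
  have hplay : ∀ s, IsPlay (p s) := by
    intro s n
    rw [hh]
    exact (legal_run τ hτ m0 hm0 C s (n + 1)).1
  have hodd : ∀ s n, n % 2 = 0 → p s (n + 1) = τ (run (nextB τ m0 C s) (n + 1)) := by
    intro s n hn
    simp only [p, run, nextB, length_run, if_pos hn]
  have heven : ∀ s k, p s (2 * k + 2) = cut (p s (2 * k + 1)) (s k) (C k) := by
    intro s k
    have h1 : ¬ (2 * k + 1) % 2 = 0 := by omega
    have h2 : (2 * k + 1) / 2 = k := by omega
    show nextB τ m0 C s (nextB τ m0 C s (run (nextB τ m0 C s) (2 * k + 1)) ::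
      run (nextB τ m0 C s) (2 * k + 1)) = _
    rw [nextB, length_run, if_neg h1, h2]
  have hfol : ∀ s, Follows 1 τ (p s) := by
    intro s n hn
    obtain ⟨n, rfl⟩ : ∃ k, n = k + 1 := ⟨n - 1, by omega⟩
    rw [hh, hodd s n (by omega)]
  have hne : ∀ s, ∃ x, ∀ n, x ∈ picked (p s (n + 1)) := by
    intro s
    obtain ⟨x, hx⟩ := Set.nonempty_iff_ne_empty.2 (hwin (p s) (hplay s) (hfol s))
    exact ⟨x, Set.mem_iInter.1 hx⟩
  choose x hx using hne
  have hcongr : ∀ s s' n, (∀ j, 2 * j + 2 ≤ n → s j = s' j) → p s n = p s' n := by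
    intro s s' n h
    have := run_congr τ m0 C s s' (n + 1) (fun j hj => h j (by omega))
    exact (List.cons.inj this).1
  have hdig : ∀ s k, e (x s) k = true ↔
      picked (p s (2 * k + 3)) = side (p s (2 * k + 1)) (s k) ∩ C k := by
    intro s k
    have h1 := (hplay s (2 * k + 3)).2
    have h2 := hx s (2 * k + 2)
    rw [heven] at h1
    constructor
    · intro hc
      rcases h1 with h1 | h1
      · exact h1
      · rw [h1] at h2
        exact absurd hc h2.2
    · intro hc
      rw [hc] at h2
      exact h2.2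
  have hlip : Lip (fun s => e (x s)) := by
    intro k s s' h
    have a1 : p s (2 * k + 3) = p s' (2 * k + 3) := hcongr s s' _ (fun j hj => h j (by omega))
    have a2 : p s (2 * k + 1) = p s' (2 * k + 1) := hcongr s s' _ (fun j hj => h j (by omega))
    have a3 := hdig s k
    rw [a1, a2, h k le_rfl, ← hdig s' k] at a3
    exact Bool.eq_iff_iff.2 a3
  have hinj : Function.Injective (fun s => e (x s)) := by
    intro s s' hss
    have hx' : x s = x s' := e.injective hss
    by_contra hne
    have hex : ∃ k, s k ≠ s' k := Function.ne_iff.1 hne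
    let k := Nat.find hex
    have hk : s k ≠ s' k := Nat.find_spec hex
    have hlt : ∀ j, j < k → s j = s' j := fun j hj => by
      by_contra h
      exact Nat.find_min hex hj h
    have a2 : p s (2 * k + 1) = p s' (2 * k + 1) := hcongr s s' _ (fun j hj => hlt j (by omega))
    have b1 := hx s (2 * k + 1)
    have b2 := hx s' (2 * k + 1)
    rw [heven, picked_cut] at b1 b2
    rw [← a2, ← hx'] at b2
    have hd := Set.disjoint_left.1 (hplay s (2 * k + 1)).1
    revert b1 b2 hk
    cases s k <;> cases s' k <;> simp only [side] <;> intro hk b1 b2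
    · exact hk rfl
    · exact hd b2 b1
    · exact hd b1 b2
    · exact hk rfl
  obtain ⟨⟨s1, hs1⟩, ⟨s2, hs2⟩⟩ := hB _ hlip hinj
  have c1 := hx s1 0
  have c2 := hx s2 0
  have a1 : p s1 1 = p s2 1 := hcongr s1 s2 1 (fun j hj => by omega)
  have hm := (hplay s2 1).2
  rw [zero_add] at c1 c2
  rw [a1] at c1
  rcases hm with hm | hm
  · rw [hm] at c2
    exact hs2 c2
  · rw [hm] at c1
    exact c1 hs1

end Pool.Agent.H463Z.Split
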