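import Mathlib

/-!
The set-splitting game on a set `E`.

A move is an ordered pair of sets `(P, Q)`: the mover picks the set `P ∪ Q` and splits it into
the two pieces `P` and `Q`.  Histories are lists of moves, the most recent move first.
-/

namespace Pool.Agent.H463Z.Split

universe u

variable {E : Type u}

/-- The set picked at a move `m`, which the move splits into `m.1` and `m.2`. -/
def picked (m : Set E × Set E) : Set E := m.1 ∪ m.2

/-- `m` is a legal move after the history `h` (most recent move first): its two pieces are
disjoint, and their union is all of `E` at the first move, and afterwards is one of the two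
pieces of the previous move. -/
def LegalMove : List (Set E × Set E) → Set E × Set E → Prop
  | [], m => Disjoint m.1 m.2 ∧ picked m = Set.univ
  | l :: _, m => Disjoint m.1 m.2 ∧ (picked m = l.1 ∨ picked m = l.2)

/-- A history all of whose moves are legal. -/
def LegalHist : List (Set E × Set E) → Prop
  | [] => True
  | m :: h => LegalMove h m ∧ LegalHist h

/-- The history formed by the moves `0, ..., n - 1` of `p`, the most recent move first. -/
def hist (p : ℕ → Set E × Set E) : ℕ → List (Set E × Set E)
  | 0 => []
  | n + 1 => p n :: hist p n

/-- A play: an infinite sequence of moves, each legal after the earlier ones. -/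
def IsPlay (p : ℕ → Set E × Set E) : Prop := ∀ n, LegalMove (hist p n) (p n)

/-- A strategy for the player who makes the moves `n` with `n % 2 = r`: it assigns a legal move
to every legal history ending at that player's turn. -/
def IsStrategy (r : ℕ) (σ : List (Set E × Set E) → Set E × Set E) : Prop :=
  ∀ h, LegalHist h → h.length % 2 = r → LegalMove h (σ h)

/-- The play `p` is consistent with `σ` at the moves `n` with `n % 2 = r`. -/
def Follows (r : ℕ) (σ : List (Set E × Set E) → Set E × Set E) (p : ℕ → Set E × Set E) : Prop :=
  ∀ n, n % 2 = r → p n = σ (hist p n)

/-- The intersection of the sets `X n`, `n ≥ 1`, picked during the play. -/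
def outcome (p : ℕ → Set E × Set E) : Set E := ⋂ n, picked (p (n + 1))

/-- Player A (moves `0, 2, 4, ...`; wins if the intersection is empty) has a winning strategy. -/
def AHasWinning (E : Type u) : Prop :=
  ∃ σ : List (Set E × Set E) → Set E × Set E, IsStrategy 0 σ ∧
    ∀ p, IsPlay p → Follows 0 σ p → outcome p = ∅

/-- Player B (moves `1, 3, 5, ...`; wins if the intersection is not empty) has a winning
strategy. -/
def BHasWinning (E : Type u) : Prop :=
  ∃ σ : List (Set E × Set E) → Set E × Set E, IsStrategy 1 σ ∧
    ∀ p, IsPlay p → Follows 1 σ p → outcome p ≠ ∅

end Pool.Agent.H463Z.Split
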